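import Mathlib

set_option autoImplicit false

/-! # The chromatic number of the vertices of degree `k + t` of a `k`-tree -/

namespace Pool.Agent.Results.MP_26d357_co.KTreeDegree

/-- `G` is a `k`-tree: its vertices can be listed as `v 0, ..., v (n-1)` with `n ≥ k + 1` such that
the first `k + 1` of them are pairwise adjacent and each later one is adjacent to exactly `k` earlier
ones, which are pairwise adjacent. -/
def IsKTree {V : Type} (k : ℕ) (G : SimpleGraph V) : Prop :=
  ∃ (n : ℕ) (v : Fin n ≃ V), k + 1 ≤ n ∧
    (∀ i j : Fin n, i.val < k + 1 → j.val < k + 1 → i ≠ j → G.Adj (v i) (v j)) ∧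
    ∀ i : Fin n, k + 1 ≤ i.val → {j : Fin n | j < i ∧ G.Adj (v i) (v j)}.ncard = k ∧
      ∀ j j' : Fin n, j < i → j' < i → G.Adj (v i) (v j) → G.Adj (v i) (v j') → j ≠ j' →
        G.Adj (v j) (v j')

/-- The set of the vertices of degree exactly `i`. -/
def degreeSet {V : Type} (G : SimpleGraph V) (i : ℕ) : Set V := {v | (G.neighborSet v).ncard = i}

section upper

open Classical in
/-- neighbours with index less than `m` -/
noncomputable def nb {n : ℕ} (H : SimpleGraph (Fin n)) (m : ℕ) (i : Fin n) : Finset (Fin n) :=
  Finset.univ.filter fun j => j.val < m ∧ H.Adj i j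

variable {n k : ℕ} {H : SimpleGraph (Fin n)}

theorem mem_nb {m : ℕ} {i j : Fin n} : j ∈ nb H m i ↔ j.val < m ∧ H.Adj i j := by
  simp [nb]

theorem nb_mono {m m' : ℕ} (h : m ≤ m') (i : Fin n) : nb H m i ⊆ nb H m' i := by
  intro j hj
  rw [mem_nb] at *
  exact ⟨by omega, hj.2⟩

theorem card_lt (m : ℕ) (hm : m ≤ n) : (Finset.univ.filter fun j : Fin n => j.val < m).card = m := by
  have : (Finset.univ.filter fun j : Fin n => j.val < m) =
      (Finset.univ : Finset (Fin m)).map (Fin.castLEEmb hm) := by
    ext j
    simp only [Finset.mem_filter, Finset.mem_univ, true_and, Finset.mem_map, Fin.castLEEmb_apply]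
    constructor
    · intro h
      exact ⟨⟨j.val, h⟩, by ext; rfl⟩
    · rintro ⟨a, rfl⟩
      exact a.2
  rw [this, Finset.card_map, Finset.card_univ, Fintype.card_fin]

/-- the `k`-tree condition for the natural ordering of `Fin n` -/
structure KT (k : ℕ) (H : SimpleGraph (Fin n)) : Prop where
  base : ∀ i j : Fin n, i.val < k + 1 → j.val < k + 1 → i ≠ j → H.Adj i j
  card : ∀ i : Fin n, k + 1 ≤ i.val → (nb H i.val i).card = k
  clique : ∀ i : Fin n, k + 1 ≤ i.val → ∀ j j' : Fin n, j ∈ nb H i.val i → j' ∈ nb H i.val i →
    j ≠ j' → H.Adj j j'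

theorem earlier_clique (h : KT k H) (i : Fin n) (j j' : Fin n) (hj : j ∈ nb H i.val i)
    (hj' : j' ∈ nb H i.val i) (hne : j ≠ j') : H.Adj j j' := by
  rcases Nat.lt_or_ge i.val (k + 1) with hi | hi
  · rw [mem_nb] at hj hj'
    exact h.base j j' (by omega) (by omega) hne
  · exact h.clique i hi j j' hj hj' hne

/-- cliques have at most `k + 1` vertices -/
theorem clique_le (h : KT k H) (hn : k + 1 ≤ n) (Q : Finset (Fin n))
    (hQ : ∀ a ∈ Q, ∀ b ∈ Q, a ≠ b → H.Adj a b) : Q.card ≤ k + 1 := by
  rcases Q.eq_empty_or_nonempty with rfl | hne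
  · simp
  · set u := Q.max' hne with hu
    have huQ : u ∈ Q := Q.max'_mem hne
    rcases Nat.lt_or_ge u.val (k + 1) with h1 | h1
    · have : Q ⊆ Finset.univ.filter fun j : Fin n => j.val < k + 1 := by
        intro j hj
        have := Q.le_max' j hj
        simp only [Finset.mem_filter, Finset.mem_univ, true_and]
        exact lt_of_le_of_lt (Fin.le_def.mp this) h1
      exact (Finset.card_le_card this).trans (card_lt (k + 1) hn).le
    · have h2 : Q.erase u ⊆ nb H u.val u := by
        intro j hj
        rw [Finset.mem_erase] at hj
        rw [mem_nb]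
        refine ⟨?_, hQ u huQ j hj.2 hj.1.symm⟩
        have := Q.le_max' j hj.2
        exact lt_of_le_of_ne (Fin.le_def.mp this) (fun h => hj.1 (Fin.ext h))
      have h3 := Finset.card_le_card h2
      rw [h.card u h1, Finset.card_erase_of_mem huQ] at h3
      omega

/-- a clique none of whose vertices dominates the first `m` vertices -/
theorem lemA (h : KT k H) (hn : k + 1 ≤ n) : ∀ m, k + 1 ≤ m → m ≤ n → ∀ Q : Finset (Fin n),
    (∀ a ∈ Q, a.val < m) → (∀ a ∈ Q, ∀ b ∈ Q, a ≠ b → H.Adj a b) →
    (∀ a ∈ Q, ∃ j : Fin n, j.val < m ∧ j ≠ a ∧ ¬ H.Adj a j) → Q.card + k + 1 ≤ m := by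
  classical
  intro m hkm
  induction m, hkm using Nat.le_induction with
  | base =>
    intro hm Q hQm hQ hdom
    have : Q = ∅ := by
      by_contra hne
      obtain ⟨a, ha⟩ := Finset.nonempty_iff_ne_empty.mpr hne
      obtain ⟨j, hj, hja, hj'⟩ := hdom a ha
      exact hj' (h.base a j (hQm a ha) hj hja.symm)
    simp [this]
  | succ m hkm ih =>
    intro hm Q hQm hQ hdom
    set u : Fin n := ⟨m, by omega⟩ with hu
    by_cases huQ : u ∈ Q
    · have h1 := ih (by omega) (Q.erase u) ?_ ?_ ?_
      · rw [Finset.card_erase_of_mem huQ] at h1
        have := Finset.card_pos.mpr ⟨u, huQ⟩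
        omega
      · intro a ha
        rw [Finset.mem_erase] at ha
        have := hQm a ha.2
        have h2 : a.val ≠ m := fun h => ha.1 (Fin.ext h)
        omega
      · intro a ha b hb
        exact hQ a (Finset.mem_of_mem_erase ha) b (Finset.mem_of_mem_erase hb)
      · intro a ha
        rw [Finset.mem_erase] at ha
        obtain ⟨j, hj, hja, hj'⟩ := hdom a ha.2
        refine ⟨j, ?_, hja, hj'⟩
        have h2 : j ≠ u := by
          rintro rfl
          exact hj' (hQ a ha.2 u huQ ha.1)
        have h3 : j.val ≠ m := fun h => h2 (Fin.ext h)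
        omega
    · set D := Q.filter fun a => ∀ j : Fin n, j.val < m → j ≠ a → H.Adj a j with hD
      have hlt : ∀ a ∈ Q, a.val < m := by
        intro a ha
        have := hQm a ha
        have h2 : a.val ≠ m := fun h => huQ (by
          have : a = u := Fin.ext h
          rwa [this] at ha)
        omega
      have hDnot : ∀ a ∈ D, ¬ H.Adj a u := by
        intro a ha
        rw [hD, Finset.mem_filter] at ha
        obtain ⟨j, hj, hja, hj'⟩ := hdom a ha.1
        have h2 : ¬ j.val < m := fun hlt => hj' (ha.2 j hlt hja)
        have h3 : j = u := Fin.ext (by show j.val = m; omega)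
        rwa [h3] at hj'
      have hD1 : D.card ≤ 1 := by
        rw [Finset.card_le_one]
        intro a ha b hb
        by_contra hab
        have haD := ha
        have hbD := hb
        rw [hD, Finset.mem_filter] at ha hb
        have hua : a ∉ nb H m u := fun h => hDnot a haD (mem_nb.mp h).2.symm
        have hub : b ∉ nb H m u := fun h => hDnot b hbD (mem_nb.mp h).2.symm
        have h4 := clique_le h hn (insert a (insert b (nb H m u))) ?_
        · rw [Finset.card_insert_of_notMem (by simp [hab, hua]),
            Finset.card_insert_of_notMem hub, h.card u hkm] at h4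
          omega
        · have hadj : ∀ c ∈ insert b (nb H m u), H.Adj a c := by
            intro c hc
            rw [Finset.mem_insert] at hc
            rcases hc with rfl | hc
            · exact hQ a ha.1 c hb.1 hab
            · exact ha.2 c (mem_nb.mp hc).1 (fun h => hua (h ▸ hc))
          have hbdj : ∀ c ∈ nb H m u, H.Adj b c := by
            intro c hc
            exact hb.2 c (mem_nb.mp hc).1 (fun h => hub (h ▸ hc))
          intro c hc d hd hcd
          rw [Finset.mem_insert] at hc hd
          rcases hc with rfl | hc
          · rcases hd with rfl | hd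
            · exact absurd rfl hcd
            · exact hadj d hd
          · rcases hd with rfl | hd
            · exact (hadj c hc).symm
            · rw [Finset.mem_insert] at hc hd
              rcases hc with rfl | hc
              · rcases hd with rfl | hd
                · exact absurd rfl hcd
                · exact hbdj d hd
              · rcases hd with rfl | hd
                · exact (hbdj c hc).symm
                · exact h.clique u hkm c d hc hd hcd
      have h1 := ih (by omega) (Q \ D) ?_ ?_ ?_
      · have := Finset.le_card_sdiff D Q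
        omega
      · intro a ha
        exact hlt a (Finset.mem_sdiff.mp ha).1
      · intro a ha b hb
        exact hQ a (Finset.mem_sdiff.mp ha).1 b (Finset.mem_sdiff.mp hb).1
      · intro a ha
        rw [Finset.mem_sdiff, hD, Finset.mem_filter] at ha
        by_contra hcon
        push Not at hcon
        exact ha.2 ⟨ha.1, fun j hj hja => hcon j hj hja⟩

theorem min_degree (h : KT k H) (m : ℕ) (hkm : k + 1 ≤ m) (hm : m ≤ n) (i : Fin n)
    (hi : i.val < m) : k ≤ (nb H m i).card := by
  classical
  rcases Nat.lt_or_ge i.val (k + 1) with h1 | h1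
  · have h2 : (Finset.univ.filter fun j : Fin n => j.val < k + 1).erase i ⊆ nb H m i := by
      intro j hj
      simp only [Finset.mem_erase, Finset.mem_filter, Finset.mem_univ, true_and] at hj
      rw [mem_nb]
      exact ⟨by omega, h.base i j h1 hj.2 hj.1.symm⟩
    have h3 := Finset.card_le_card h2
    rw [Finset.card_erase_of_mem (by simpa using h1), card_lt (k + 1) (by omega)] at h3
    omega
  · have := Finset.card_le_card (nb_mono (H := H) hi.le i)
    rw [h.card i h1] at this
    exact this

theorem lemB (h : KT k H) (hn : k + 1 ≤ n) : ∀ m, m ≤ n → ∀ (t : ℕ) (Q : Finset (Fin n)),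
    k + t + 2 ≤ m → (∀ a ∈ Q, a.val < m) → (∀ a ∈ Q, ∀ b ∈ Q, a ≠ b → H.Adj a b) →
    (∀ a ∈ Q, (nb H m a).card ≤ k + t) → Q.card ≤ t + 1 := by
  classical
  intro m
  induction m with
  | zero => intro _ t Q hkt; omega
  | succ m ih =>
    intro hm t Q hkt hQm hQ hdeg
    rcases Nat.eq_or_lt_of_le hkt with heq | hlt
    · have h1 := lemA h hn (m + 1) (by omega) hm Q hQm hQ ?_
      · omega
      · intro a ha
        by_contra hcon
        push Not at hcon
        have h2 : (Finset.univ.filter fun j : Fin n => j.val < m + 1).erase a ⊆ nb H (m + 1) a := by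
          intro j hj
          simp only [Finset.mem_erase, Finset.mem_filter, Finset.mem_univ, true_and] at hj
          rw [mem_nb]
          exact ⟨hj.2, hcon j hj.2 hj.1⟩
        have h3 := Finset.card_le_card h2
        rw [Finset.card_erase_of_mem (by simpa using hQm a ha), card_lt (m + 1) hm] at h3
        have := hdeg a ha
        omega
    · set u : Fin n := ⟨m, by omega⟩ with hu
      by_cases huQ : u ∈ Q
      · have hd : ∀ a ∈ Q.erase u, (nb H m a).card + 1 ≤ k + t := by
          intro a ha
          rw [Finset.mem_erase] at ha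
          have h1 : u ∉ nb H m a := fun h => by
            have := (mem_nb.mp h).1
            simp [hu] at this
          have h2 : insert u (nb H m a) ⊆ nb H (m + 1) a := by
            intro j hj
            rw [Finset.mem_insert] at hj
            rcases hj with rfl | hj
            · rw [mem_nb]
              exact ⟨by simp [hu], hQ a ha.2 u huQ ha.1⟩
            · exact nb_mono (Nat.le_succ m) a hj
          have h3 := Finset.card_le_card h2
          rw [Finset.card_insert_of_notMem h1] at h3
          exact h3.trans (hdeg a ha.2)
        have hval : ∀ a ∈ Q.erase u, a.val < m := by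
          intro a ha
          rw [Finset.mem_erase] at ha
          have := hQm a ha.2
          have h2 : a.val ≠ m := fun h => ha.1 (Fin.ext h)
          omega
        have hcard : Q.card = (Q.erase u).card + 1 := by
          rw [Finset.card_erase_of_mem huQ]
          have := Finset.card_pos.mpr ⟨u, huQ⟩
          omega
        rcases t with _ | t
        · have : Q.erase u = ∅ := by
            by_contra hne
            obtain ⟨a, ha⟩ := Finset.nonempty_iff_ne_empty.mpr hne
            have h1 := hd a ha
            have h2 := min_degree h m (by omega) (by omega) a (hval a ha)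
            omega
          rw [hcard, this]
          simp
        · have h1 := ih (by omega) t (Q.erase u) (by omega) hval
            (fun a ha b hb => hQ a (Finset.mem_of_mem_erase ha) b (Finset.mem_of_mem_erase hb))
            (fun a ha => by have := hd a ha; omega)
          omega
      · refine ih (by omega) t Q (by omega) ?_ hQ ?_
        · intro a ha
          have := hQm a ha
          have h2 : a.val ≠ m := fun h => huQ (by
            have : a = u := Fin.ext h
            rwa [this] at ha)
          omega
        · intro a ha
          exact (Finset.card_le_card (nb_mono (Nat.le_succ m) a)).trans (hdeg a ha)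

/-- greedy colouring of the vertices of degree at most `k + t` -/
theorem greedy (h : KT k H) (hn : k + 1 ≤ n) (t : ℕ) (ht : k + t + 2 ≤ n) : ∀ m, m ≤ n →
    ∃ c : Fin n → Fin (t + 1), ∀ i j : Fin n, i.val < m → j.val < m → (nb H n i).card ≤ k + t →
      (nb H n j).card ≤ k + t → H.Adj i j → c i ≠ c j := by
  classical
  intro m
  induction m with
  | zero =>
    intro _
    exact ⟨fun _ => 0, fun i j hi => absurd hi (by omega)⟩
  | succ m ih =>
    intro hm
    obtain ⟨c, hc⟩ := ih (by omega)
    set u : Fin n := ⟨m, by omega⟩ with hu
    by_cases hdu : (nb H n u).card ≤ k + t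
    · set E := (nb H m u).filter fun j => (nb H n j).card ≤ k + t with hE
      have hEcard : (insert u E).card ≤ t + 1 := by
        apply lemB h hn n le_rfl t (insert u E) ht (fun a _ => a.2)
        · intro a ha b hb hab
          have hadj : ∀ c ∈ E, H.Adj u c := fun c hc => (mem_nb.mp (Finset.mem_filter.mp hc).1).2
          rw [Finset.mem_insert] at ha hb
          rcases ha with rfl | ha
          · rcases hb with rfl | hb
            · exact absurd rfl hab
            · exact hadj b hb
          · rcases hb with rfl | hb
            · exact (hadj a ha).symm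
            · exact earlier_clique h u a b (Finset.mem_filter.mp ha).1 (Finset.mem_filter.mp hb).1 hab
        · intro a ha
          rw [Finset.mem_insert] at ha
          rcases ha with rfl | ha
          · exact hdu
          · exact (Finset.mem_filter.mp ha).2
      have huE : u ∉ E := by
        intro h
        have := (mem_nb.mp (Finset.mem_filter.mp h).1).1
        simp [hu] at this
      rw [Finset.card_insert_of_notMem huE] at hEcard
      obtain ⟨x, hx⟩ : ∃ x : Fin (t + 1), x ∉ E.image c := by
        by_contra hcon
        push Not at hcon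
        have h1 : (Finset.univ : Finset (Fin (t + 1))) ⊆ E.image c := fun x _ => hcon x
        have h2 := (Finset.card_le_card h1).trans Finset.card_image_le
        rw [Finset.card_univ, Fintype.card_fin] at h2
        omega
      have hxE : ∀ j : Fin n, j.val < m → H.Adj u j → (nb H n j).card ≤ k + t → x ≠ c j := by
        intro j hj hadj hd hxj
        apply hx
        rw [Finset.mem_image]
        exact ⟨j, by rw [hE, Finset.mem_filter, mem_nb]; exact ⟨⟨hj, hadj⟩, hd⟩, hxj.symm⟩
      refine ⟨Function.update c u x, ?_⟩
      intro i j hi hj hdi hdj hadj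
      by_cases hiu : i = u
      · subst hiu
        have hju : j ≠ u := hadj.ne'
        have h2 : j.val ≠ m := fun h => hju (Fin.ext h)
        rw [Function.update_self, Function.update_of_ne hju]
        exact hxE j (by omega) hadj hdj
      · by_cases hju : j = u
        · subst hju
          have h2 : i.val ≠ m := fun h => hiu (Fin.ext h)
          rw [Function.update_self, Function.update_of_ne hiu]
          exact (hxE i (by omega) hadj.symm hdi).symm
        · have h2 : i.val ≠ m := fun h => hiu (Fin.ext h)
          have h3 : j.val ≠ m := fun h => hju (Fin.ext h)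
          rw [Function.update_of_ne hiu, Function.update_of_ne hju]
          exact hc i j (by omega) (by omega) hdi hdj hadj
    · refine ⟨c, ?_⟩
      intro i j hi hj hdi hdj hadj
      have h2 : i.val ≠ m := fun h => hdu (by
        have : i = u := Fin.ext h
        rwa [this] at hdi)
      have h3 : j.val ≠ m := fun h => hdu (by
        have : j = u := Fin.ext h
        rwa [this] at hdj)
      exact hc i j (by omega) (by omega) hdi hdj hadj

theorem ncard_eq_nb {V : Type} (G : SimpleGraph V) (v : Fin n ≃ V) (m : ℕ) (i : Fin n) :
    {j : Fin n | j.val < m ∧ G.Adj (v i) (v j)}.ncard = (nb (G.comap v) m i).card := by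
  rw [← Set.ncard_coe_finset]
  congr 1
  ext j
  simp [mem_nb]

theorem degree_eq_nb {V : Type} (G : SimpleGraph V) (v : Fin n ≃ V) (i : Fin n) :
    (G.neighborSet (v i)).ncard = (nb (G.comap v) n i).card := by
  rw [← ncard_eq_nb, ← Set.ncard_image_of_injective _ v.injective]
  congr 1
  ext x
  simp only [SimpleGraph.mem_neighborSet, Set.mem_image, Set.mem_ofPred_eq]
  constructor
  · intro h
    exact ⟨v.symm x, ⟨(v.symm x).2, by simpa using h⟩, by simp⟩
  · rintro ⟨j, ⟨_, hj⟩, rfl⟩
    exact hj

theorem upper {V : Type} [Finite V] {G : SimpleGraph V} (hG : IsKTree k G) (t : ℕ)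
    (hn : k + t + 2 ≤ Nat.card V) : (G.induce (degreeSet G (k + t))).Colorable (t + 1) := by
  obtain ⟨n, v, hkn, hbase, hstep⟩ := hG
  have hcard : Nat.card V = n := by
    rw [← Nat.card_congr v, Nat.card_eq_fintype_card, Fintype.card_fin]
  rw [hcard] at hn
  have hKT : KT k (G.comap v) := by
    refine ⟨fun i j hi hj hij => hbase i j hi hj hij, ?_, ?_⟩
    · intro i hi
      rw [← ncard_eq_nb]
      exact (hstep i hi).1
    · intro i hi j j' hj hj' hne
      rw [mem_nb] at hj hj'
      exact (hstep i hi).2 j j' hj.1 hj'.1 hj.2 hj'.2 hne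
  obtain ⟨c, hc⟩ := greedy hKT hkn t hn n le_rfl
  refine ⟨SimpleGraph.Coloring.mk (fun x => c (v.symm x.1)) ?_⟩
  rintro ⟨x, hx⟩ ⟨y, hy⟩ hxy
  apply hc _ _ (v.symm x).2 (v.symm y).2
  · rw [← degree_eq_nb, v.apply_symm_apply]
    exact le_of_eq hx
  · rw [← degree_eq_nb, v.apply_symm_apply]
    exact le_of_eq hy
  · show G.Adj (v (v.symm x)) (v (v.symm y))
    rw [v.apply_symm_apply, v.apply_symm_apply]
    exact hxy

end upper

section lower

variable (t : ℕ)

/-- the extremal `(t+1)`-tree: a clique `0, ..., t + 1`, and for every `i ≤ t` a vertex joined to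
all vertices of the clique except `i` -/
def ex : SimpleGraph (Fin (t + 2) ⊕ Fin (t + 1)) where
  Adj
    | .inl i, .inl j => i ≠ j
    | .inl i, .inr j => i.val ≠ j.val
    | .inr j, .inl i => i.val ≠ j.val
    | .inr _, .inr _ => False
  symm := ⟨by
    rintro (a | a) (b | b) h
    · exact h.symm
    · exact h
    · exact h
    · exact h⟩
  loopless := ⟨by
    rintro (a | a) h
    · exact h rfl
    · exact h⟩

theorem ex_isKTree : IsKTree (t + 1) (ex t) := by
  refine ⟨(t + 2) + (t + 1), finSumFinEquiv.symm, by omega, ?_, ?_⟩
  · intro i j hi hj hij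
    have h1 : i = Fin.castAdd (t + 1) ⟨i.val, by omega⟩ := by ext; rfl
    have h2 : j = Fin.castAdd (t + 1) ⟨j.val, by omega⟩ := by ext; rfl
    rw [h1, h2, finSumFinEquiv_symm_apply_castAdd, finSumFinEquiv_symm_apply_castAdd]
    intro h
    apply hij
    rw [Fin.mk.injEq] at h
    exact Fin.ext h
  · intro i hi
    have h1 : i = Fin.natAdd (t + 2) ⟨i.val - (t + 2), by omega⟩ := by
      ext
      simp only [Fin.val_natAdd]
      omega
    set a : Fin (t + 1) := ⟨i.val - (t + 2), by omega⟩ with ha
    have hnat : ∀ j : Fin ((t + 2) + (t + 1)), ¬ j.val < t + 2 →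
        ¬ (ex t).Adj (finSumFinEquiv.symm i) (finSumFinEquiv.symm j) := by
      intro j hj
      have h2 : j = Fin.natAdd (t + 2) ⟨j.val - (t + 2), by omega⟩ := by
        ext
        simp only [Fin.val_natAdd]
        omega
      rw [h1, h2, finSumFinEquiv_symm_apply_natAdd, finSumFinEquiv_symm_apply_natAdd]
      exact fun h => h
    have hcast : ∀ j : Fin (t + 2),
        ((ex t).Adj (finSumFinEquiv.symm i) (finSumFinEquiv.symm (Fin.castAdd (t + 1) j)) ↔
          j.val ≠ a.val) := by
      intro j
      rw [h1, finSumFinEquiv_symm_apply_castAdd, finSumFinEquiv_symm_apply_natAdd]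
      exact Iff.rfl
    constructor
    · have h2 : {j | j < i ∧ (ex t).Adj (finSumFinEquiv.symm i) (finSumFinEquiv.symm j)} =
          (Fin.castAdd (t + 1)) '' (((Finset.univ : Finset (Fin (t + 2))).erase
            ⟨a.val, by omega⟩ : Finset (Fin (t + 2))) : Set (Fin (t + 2))) := by
        ext j
        simp only [Set.mem_ofPred_eq, Set.mem_image, Finset.coe_erase, Finset.coe_univ,
          Set.mem_sdiff, Set.mem_univ, true_and, Set.mem_singleton_iff]
        constructor
        · rintro ⟨hji, hadj⟩
          have hj : j.val < t + 2 := by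
            by_contra h
            exact hnat j h hadj
          refine ⟨⟨j.val, hj⟩, ?_, by ext; rfl⟩
          have h3 : j = Fin.castAdd (t + 1) ⟨j.val, hj⟩ := by ext; rfl
          rw [h3, hcast] at hadj
          intro h
          exact hadj (by rw [h])
        · rintro ⟨b, hb, rfl⟩
          refine ⟨?_, (hcast b).mpr (fun h => hb (Fin.ext h))⟩
          rw [Fin.lt_def]
          simp only [Fin.val_castAdd]
          omega
      rw [h2, Set.ncard_image_of_injective _ (Fin.castAdd_injective _ _), Set.ncard_coe_finset,
        Finset.card_erase_of_mem (Finset.mem_univ _)]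
      simp
    · intro j j' hj hj' hadj hadj' hne
      have h2 : j.val < t + 2 := by
        by_contra h
        exact hnat j h hadj
      have h3 : j'.val < t + 2 := by
        by_contra h
        exact hnat j' h hadj'
      have h4 : j = Fin.castAdd (t + 1) ⟨j.val, h2⟩ := by ext; rfl
      have h5 : j' = Fin.castAdd (t + 1) ⟨j'.val, h3⟩ := by ext; rfl
      rw [h4, h5, finSumFinEquiv_symm_apply_castAdd, finSumFinEquiv_symm_apply_castAdd]
      intro h
      apply hne
      rw [Fin.mk.injEq] at h
      exact Fin.ext h

theorem ex_degree (i : Fin (t + 1)) :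
    ((ex t).neighborSet (.inl (i.castSucc))).ncard = (t + 1) + t := by
  have h1 : (ex t).neighborSet (.inl (i.castSucc)) =
      ((((Finset.univ : Finset (Fin (t + 2))).erase i.castSucc).map Function.Embedding.inl ∪
        ((Finset.univ : Finset (Fin (t + 1))).erase i).map Function.Embedding.inr :
          Finset (Fin (t + 2) ⊕ Fin (t + 1))) : Set _) := by
    ext x
    rcases x with x | x
    · simp only [SimpleGraph.mem_neighborSet, Finset.coe_union, Finset.coe_map, Set.mem_union,
        Set.mem_image, Finset.coe_erase, Finset.coe_univ, Set.mem_sdiff, Set.mem_univ, true_and,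
        Set.mem_singleton_iff, Function.Embedding.inl_apply, Function.Embedding.inr_apply,
        Sum.inl.injEq, reduceCtorEq, and_false, exists_false, or_false, exists_eq_right]
      exact ne_comm
    · simp only [SimpleGraph.mem_neighborSet, Finset.coe_union, Finset.coe_map, Set.mem_union,
        Set.mem_image, Finset.coe_erase, Finset.coe_univ, Set.mem_sdiff, Set.mem_univ, true_and,
        Set.mem_singleton_iff, Function.Embedding.inl_apply, Function.Embedding.inr_apply,
        Sum.inr.injEq, reduceCtorEq, and_false, exists_false, false_or, exists_eq_right]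
      constructor
      · intro h h'
        exact h (by rw [h']; rfl)
      · intro h h'
        exact h (Fin.ext h'.symm)
  rw [h1, Set.ncard_coe_finset, Finset.card_union_of_disjoint, Finset.card_map, Finset.card_map,
    Finset.card_erase_of_mem (Finset.mem_univ _), Finset.card_erase_of_mem (Finset.mem_univ _)]
  · simp
  · rw [Finset.disjoint_left]
    rintro x hx hx'
    rw [Finset.mem_map] at hx hx'
    obtain ⟨a, _, rfl⟩ := hx
    obtain ⟨b, _, hb⟩ := hx'
    cases hb

theorem ex_lower : ((t + 1 : ℕ) : ℕ∞) ≤
    ((ex t).induce (degreeSet (ex t) ((t + 1) + t))).chromaticNumber := by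
  let f : (⊤ : SimpleGraph (Fin (t + 1))) →g (ex t).induce (degreeSet (ex t) ((t + 1) + t)) :=
    { toFun := fun i => ⟨.inl i.castSucc, ex_degree t i⟩
      map_rel' := by
        intro i j hij
        show i.castSucc ≠ j.castSucc
        intro h
        exact hij (Fin.castSucc_injective _ h) }
  have h1 := SimpleGraph.chromaticNumber_le_of_forall_imp (G := (⊤ : SimpleGraph (Fin (t + 1))))
    (G' := (ex t).induce (degreeSet (ex t) ((t + 1) + t))) (fun n hn => hn.of_hom f)
  simpa [SimpleGraph.chromaticNumber_top] using h1

end lower

/-- For every `t`, the largest chromatic number of the graph induced by the vertices of degree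
`k + t` in a `k`-tree of order at least `k + t + 2` (over all `k ≥ 1`) is `t + 1`. -/
theorem result (t : ℕ) : IsGreatest {c : ℕ | ∃ (k : ℕ) (V : Type) (_ : Finite V)
    (G : SimpleGraph V), 1 ≤ k ∧ IsKTree k G ∧ k + t + 2 ≤ Nat.card V ∧
      (G.induce (degreeSet G (k + t))).chromaticNumber = c} (t + 1) := by
  constructor
  · have hcard : (t + 1) + t + 2 ≤ Nat.card (Fin (t + 2) ⊕ Fin (t + 1)) := by
      simp
      omega
    refine ⟨t + 1, Fin (t + 2) ⊕ Fin (t + 1), inferInstance, ex t, by omega, ex_isKTree t,
      hcard, le_antisymm ?_ (ex_lower t)⟩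
    exact (upper (ex_isKTree t) t hcard).chromaticNumber_le
  · rintro c ⟨k, V, _, G, _, hG, hV, hc⟩
    have h1 := (upper hG t hV).chromaticNumber_le
    rw [hc] at h1
    exact_mod_cast h1

end Pool.Agent.Results.MP_26d357_co.KTreeDegree
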